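import Pool.Agent.H78.GX.H6.N4D.TA

/-!
# Row SQR: from counting to mean squares
-/

set_option autoImplicit false

open Finset

namespace Pool.Agent.H78.GX.H97.N4D

open Pool.Agent.H6.N4D Pool.Agent.H78.GX.H6.N4D Pool.Agent.H78.GX

private theorem asq_le (S : Par) (M ε : ℝ) (f : ℤ → ℂ) (hN : 0 ≤ S.N) (hε : 0 < ε)
    (hf : ∀ t, ‖f t‖ ≤ M) (l : ℤ) :
    Asq S f l ≤ ε ^ 2 * S.N +
      4 * M ^ 2 * S.cnt (fun t => t - l ∈ S.I ∧ ε < ‖f (t - l) - f t‖) := by
  classical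
  set E : ℤ → Prop := fun t => t - l ∈ S.I ∧ ε < ‖f (t - l) - f t‖ with hE
  have h1 : ∀ t ∈ S.I.filter (fun t => t - l ∈ S.I), ‖f (t - l) - f t‖ ^ 2 ≤
      ε ^ 2 + if E t then 4 * M ^ 2 else 0 := by
    intro t ht
    have htl := (mem_filter.1 ht).2
    by_cases hEt : E t
    · rw [if_pos hEt]
      have h2 : ‖f (t - l) - f t‖ ≤ 2 * M :=
        (norm_sub_le _ _).trans (by linarith [hf (t - l), hf t])
      have h3 : ‖f (t - l) - f t‖ ^ 2 ≤ (2 * M) ^ 2 := pow_le_pow_left₀ (norm_nonneg _) h2 2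
      nlinarith [sq_nonneg ε]
    · rw [if_neg hEt, add_zero]
      have h2 : ‖f (t - l) - f t‖ ≤ ε := by
        by_contra hcon
        exact hEt ⟨htl, not_le.1 hcon⟩
      exact pow_le_pow_left₀ (norm_nonneg _) h2 2
  have h4 : Asq S f l ≤ ∑ t ∈ S.I.filter (fun t => t - l ∈ S.I),
      (ε ^ 2 + if E t then 4 * M ^ 2 else 0) := sum_le_sum h1
  refine h4.trans ?_
  rw [sum_add_distrib, sum_const, nsmul_eq_mul]
  refine add_le_add ?_ ?_
  · rw [mul_comm]
    refine mul_le_mul_of_nonneg_left ?_ (sq_nonneg _)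
    rw [← Par.card_I hN]
    exact_mod_cast card_filter_le _ _
  · have h5 : ∑ t ∈ S.I.filter (fun t => t - l ∈ S.I), (if E t then 4 * M ^ 2 else 0) ≤
        ∑ t ∈ S.I, (if E t then 4 * M ^ 2 else 0) := by
      refine sum_le_sum_of_subset_of_nonneg (filter_subset _ _) fun t _ _ => ?_
      split_ifs
      · positivity
      · exact le_rfl
    refine h5.trans (le_of_eq ?_)
    rw [← sum_filter, sum_const, nsmul_eq_mul, mul_comm]
    unfold Par.cnt Par.fl
    congr 2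
    congr

theorem pf_SQR : T_SQR := by
  intro S M ε f hok hL hε hε1 hM hf hedg
  have hK : (1 : ℝ) ≤ S.K := by exact_mod_cast hok.hK
  have hN : 0 ≤ S.N := by
    have h1 : 0 < S.N * S.h := lt_of_lt_of_le (by positivity) hok.hI1
    exact (pos_of_mul_pos_left h1 hok.hh.le).le
  constructor
  · intro A hA
    have h1 : ∑ p ∈ A, 1 / (p : ℝ) * Asq S f (S.l p) ≤ ∑ p ∈ A, (ε ^ 2 * S.N * (1 / (p : ℝ)) +
        4 * M ^ 2 * (1 / (p : ℝ) *
          S.cnt (fun t => t - S.l p ∈ S.I ∧ ε < ‖f (t - S.l p) - f t‖))) := by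
      refine sum_le_sum fun p _ => ?_
      have h2 := mul_le_mul_of_nonneg_left (asq_le S M ε f hN hε hf (S.l p))
        (show (0 : ℝ) ≤ 1 / (p : ℝ) by positivity)
      refine h2.trans (le_of_eq ?_)
      ring
    have h3 : ∑ p ∈ A, 1 / (p : ℝ) *
          S.cnt (fun t => t - S.l p ∈ S.I ∧ ε < ‖f (t - S.l p) - f t‖) ≤ ε * S.N := by
      refine le_trans (sum_le_sum_of_subset_of_nonneg hA fun p _ _ => ?_) hedg.pr
      exact mul_nonneg (by positivity) (Par.cnt_nonneg _)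
    rw [sum_add_distrib, ← mul_sum, ← mul_sum] at h1
    have h4 := mul_le_mul_of_nonneg_left h3 (show (0 : ℝ) ≤ 4 * M ^ 2 by positivity)
    linarith
  · intro w hw1 hw2
    have h1 := asq_le S M ε f hN hε hf (-(w : ℤ))
    have h2 : S.cnt (fun t => t - -(w : ℤ) ∈ S.I ∧ ε < ‖f (t - -(w : ℤ)) - f t‖) ≤ ε * S.N := by
      refine le_trans (le_of_eq (Par.cnt_congr fun t _ => ?_)) (hedg.sh w hw1 hw2)
      rw [sub_neg_eq_add]
    have h3 := mul_le_mul_of_nonneg_left h2 (show (0 : ℝ) ≤ 4 * M ^ 2 by positivity)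
    have h4 : ε ^ 2 ≤ M ^ 2 * ε := by nlinarith [sq_nonneg (M - 1)]
    have h5 := mul_le_mul_of_nonneg_right h4 hN
    linarith

end Pool.Agent.H78.GX.H97.N4D
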